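import Mathlib
import Pool.Agent.Helper60.SurfaceDefs
import Pool.Agent.Helper60.Critical

/-!
# Large girth graphs on surfaces are `(0, O(g^c(l)))`-colourable with `c(l) → 0`

The definitions (embedding schemes, the class of graphs of girth at least `l` that embed on some
surface of Euler genus `g`, and `(0,k)`-colourability) are in `Pool.Agent.Helper60.SurfaceDefs`.
-/

namespace Pool.Agent.Results.MP_9b9b31_co.LargeGirthZeroK

open Pool.Agent.Helper60

universe u

lemma colorable_of_isZeroK {V : Type*} [Fintype V] {G : SimpleGraph V} {k : ℕ}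
    (h : ∃ S, IsZeroK G k S) : ZeroKColorable k G := by
  obtain ⟨S, h1, h2⟩ := h
  refine ⟨S, Sᶜ, Set.union_compl_self S, disjoint_compl_right, ?_, ?_⟩
  · intro a ha b hb _
    exact h1 a ha b hb
  · intro v hv
    have := h2 v hv
    refine le_trans (le_of_eq ?_) this
    congr 1
    ext w
    exact and_comm

/-- There is a function `c` with `c(l) → 0`, namely `c(l) = 1 / ⌊(l-1)/6⌋` for `l ≥ 7`, such that
for all `l ≥ 7` and `g ≥ 1` every graph of girth at least `l` that embeds on some surface of Euler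
genus `g` is `(0, ⌊29 g^c(l)⌋)`-colourable. -/
theorem result :
    ∃ c : ℕ → ℝ, (∀ l, 0 < c l) ∧ Filter.Tendsto c Filter.atTop (nhds 0) ∧
      (∀ l, 7 ≤ l → c l = 1 / (((l - 1) / 6 : ℕ) : ℝ)) ∧
      ∀ l, 7 ≤ l → ∀ g : ℕ, 1 ≤ g → ∀ (V : Type u) [Fintype V] (G : SimpleGraph V),
        InGirthGenusClass l g G → ZeroKColorable ⌊29 * (g : ℝ) ^ c l⌋₊ G := by
  refine ⟨fun l => 1 / ((max 1 ((l - 1) / 6) : ℕ) : ℝ), ?_, ?_, ?_, ?_⟩
  · intro l
    positivity
  · have h1 : Filter.Tendsto (fun l : ℕ => max 1 ((l - 1) / 6)) Filter.atTop Filter.atTop := by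
      rw [Filter.tendsto_atTop_atTop]
      intro b
      refine ⟨6 * b + 1, fun l hl => ?_⟩
      refine le_trans ?_ (le_max_right _ _)
      omega
    exact tendsto_one_div_atTop_nhds_zero_nat.comp h1
  · intro l hl
    have : max 1 ((l - 1) / 6) = (l - 1) / 6 := by
      apply max_eq_right; omega
    simp only [this]
  · intro l hl g hg V _ G hG
    set t : ℕ := max 1 ((l - 1) / 6) with ht
    have ht1 : 1 ≤ t := le_max_left _ _
    have ht6 : 6 * t < l := by
      have : t = (l - 1) / 6 := by rw [ht]; apply max_eq_right; omega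
      omega
    set x : ℝ := (g : ℝ) ^ (1 / (t : ℝ)) with hx
    have hg1 : (1 : ℝ) ≤ g := by exact_mod_cast hg
    have hx1 : 1 ≤ x := Real.one_le_rpow hg1 (by positivity)
    have hxt : x ^ t = g := by
      rw [hx, one_div]
      exact Real.rpow_inv_natCast_pow (by positivity) (by omega)
    set k : ℕ := ⌊29 * x⌋₊ with hk
    have hk29 : 29 ≤ k := by
      rw [hk]
      apply Nat.le_floor
      push_cast
      linarith
    have hkx : 28 * x < k := by
      have := Nat.lt_floor_add_one (29 * x)
      rw [← hk] at this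
      linarith
    have hpow : 28 * g < k ^ t := by
      have h1 : (28 * x) ^ t < (k : ℝ) ^ t :=
        pow_lt_pow_left₀ hkx (by positivity) (by omega)
      have h2 : (28 : ℝ) * g ≤ (28 * x) ^ t := by
        rw [mul_pow, hxt]
        have : (28 : ℝ) ≤ 28 ^ t := by
          calc (28 : ℝ) = 28 ^ 1 := by norm_num
            _ ≤ 28 ^ t := pow_le_pow_right₀ (by norm_num) ht1
        nlinarith
      have h3 : ((28 * g : ℕ) : ℝ) < ((k ^ t : ℕ) : ℝ) := by
        push_cast
        linarith
      exact_mod_cast h3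
    exact colorable_of_isZeroK (main_bound G l g k t hl ht1 ht6 hk29 hpow hG)

end Pool.Agent.Results.MP_9b9b31_co.LargeGirthZeroK
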